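import Pool.Agent.PFD.StmtsD3

/-!
# Squad PFD, row CPF: the special fibre of the crossed product
-/

set_option autoImplicit false

open scoped BigOperators

noncomputable section

namespace Pool.Agent.PFD.D3.H44

open Pool.Agent.PFD Pool.Agent.PFD.D3

theorem q_smul {R F S A : Type} [CommRing R] [Field F] {c : D2.Cdv R F} [Ring S] [Algebra R S]
    [Ring A] [Algebra F A] (fb : D2.FibG S A c) (r : R) (x : S) :
    fb.q (r • x) = c.κ r • fb.q x := by
  rw [Algebra.smul_def, map_mul, fb.sc, ← Algebra.smul_def]

theorem cpf : CpfStmt := by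
  intro R F V E S _ _ _ _ _ ℓ c o φ W _ z _ _ s
  let q : CP (D1 o z s) →+* CP (D0 φ z) :=
    { toFun := fun a => ⟨fun e => s.fb.q (a.f e)⟩
      map_one' := by
        apply CP.ext
        funext e
        show s.fb.q ((CP.sn (D1 o z s) 1 1).f e) = (CP.sn (D0 φ z) 1 1).f e
        rw [CP.sn_f, CP.sn_f]
        by_cases h : e = 1
        · rw [if_pos h, if_pos h, map_one]
        · rw [if_neg h, if_neg h, map_zero]
      map_mul' := by
        intro a b
        apply CP.ext
        funext e
        show s.fb.q ((a * b).f e) = _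
        rw [CP.mul_f, CP.mul_f, map_sum]
        apply Finset.sum_congr rfl
        intro h _
        rw [q_smul, map_mul]
        have h1 : s.fb.q ((D1 o z s).act h (b.f (h⁻¹ * e))) =
            (D0 φ z).act h (s.fb.q (b.f (h⁻¹ * e))) := s.fb_act h _
        have h2 : c.κ ((D1 o z s).c h (h⁻¹ * e) : R) = ((D0 φ z).c h (h⁻¹ * e) : F) :=
          o.τκ _
        rw [h1, h2]
      map_zero' := by
        apply CP.ext
        funext e
        exact map_zero s.fb.q
      map_add' := by
        intro a b
        apply CP.ext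
        funext e
        exact map_add s.fb.q _ _ }
  refine ⟨⟨q, ?_, ?_, ?_⟩, fun a e => rfl⟩
  · intro r
    rw [Algebra.algebraMap_eq_smul_one, Algebra.algebraMap_eq_smul_one]
    apply CP.ext
    funext e
    show s.fb.q (r • (CP.sn (D1 o z s) 1 1).f e) = c.κ r • (CP.sn (D0 φ z) 1 1).f e
    rw [q_smul, CP.sn_f, CP.sn_f]
    by_cases h : e = 1
    · rw [if_pos h, if_pos h, map_one]
    · rw [if_neg h, if_neg h, map_zero]
  · intro a
    choose y hy using fun e => s.fb.surj (a.f e)
    refine ⟨⟨y⟩, ?_⟩
    apply CP.ext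
    funext e
    exact hy e
  · intro a ha
    have h1 : ∀ e, s.fb.q (a.f e) = 0 := by
      intro e
      have h2 : (q a).f e = 0 := by rw [ha]; rfl
      exact h2
    choose y hy using fun e => s.fb.ker (a.f e) (h1 e)
    refine ⟨⟨y⟩, ?_⟩
    apply CP.ext
    funext e
    exact hy e

end Pool.Agent.PFD.D3.H44
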