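import Pool.Agent.PFD.StmtsD2c

/-!
# Squad PFD, row WGD: the twisted group algebra as a `WFS`
-/

set_option autoImplicit false
set_option linter.unusedSectionVars false

open scoped BigOperators

noncomputable section

namespace Pool.Agent.PFD.D2b.H44

open Pool.Agent.PFD Pool.Agent.PFD.D2b

section

variable {F V E : Type} [Field F] [CommGroup V] [Group E] [Fintype E]
  (φ : E →* MulAut V) (z : Coc F E)

theorem acV_coeff (e : E) (x : MonoidAlgebra F V) (v : V) :
    (acV F φ e x).coeff v = x.coeff ((φ e).symm v) :=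
  MonoidAlgebra.coeff_domCongr (φ e) x v

theorem acV_one (e : E) (x : MonoidAlgebra F V) : (acV F φ e x).coeff 1 = x.coeff 1 := by
  rw [acV_coeff, map_one]

theorem acV_inv (e : E) (x : MonoidAlgebra F V) : acV F φ e (acV F φ e⁻¹ x) = x := by
  rw [← AlgEquiv.mul_apply, ← map_mul, mul_inv_cancel, map_one]
  rfl

/-- the form -/
def lamW : CP (D0 φ z) →ₗ[F] F where
  toFun := fun a => (a.f 1).coeff 1
  map_add' := fun _ _ => rfl
  map_smul' := fun _ _ => rfl

theorem lamW_apply (a : CP (D0 φ z)) : lamW φ z a = (a.f 1).coeff 1 := rfl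

theorem coeff_sum' {I : Type} (s : Finset I) (g : I → MonoidAlgebra F V) (v : V) :
    (∑ i ∈ s, g i).coeff v = ∑ i ∈ s, (g i).coeff v := by
  rw [MonoidAlgebra.coeff_sum, Finsupp.finsetSum_apply]

theorem lamW_mul (a b : CP (D0 φ z)) : lamW φ z (a * b) =
    ∑ h, (z.c h h⁻¹ : F) * (a.f h * acV F φ h (b.f h⁻¹)).coeff 1 := by
  rw [lamW_apply, CP.mul_f, coeff_sum']
  apply Finset.sum_congr rfl
  intro h _
  rw [mul_one]
  rfl

theorem lamW_sym (a b : CP (D0 φ z)) : lamW φ z (a * b) = lamW φ z (b * a) := by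
  rw [lamW_mul, lamW_mul, ← Equiv.sum_comp (Equiv.inv E)
    (fun h => (z.c h h⁻¹ : F) * (b.f h * acV F φ h (a.f h⁻¹)).coeff 1)]
  apply Finset.sum_congr rfl
  intro h _
  have h1 : z.c h⁻¹ h = z.c h h⁻¹ := (CP.c_inv_symm (D := D0 φ z) h).symm
  rw [Equiv.inv_apply, inv_inv, h1, ← acV_one φ h (b.f h⁻¹ * acV F φ h⁻¹ (a.f h)), map_mul,
    acV_inv, mul_comm (a.f h)]

theorem of_act (e : E) (v : V) : (D0 φ z).act e (MonoidAlgebra.of F V v) =
    MonoidAlgebra.of F V (φ e v) := acV_single F φ e v 1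

theorem n_vv (e : E) (v : V) : CP.n (D0 φ z) e * vv φ z v = vv φ z (φ e v) * CP.n (D0 φ z) e := by
  show CP.n (D0 φ z) e * CP.iS (D0 φ z) (MonoidAlgebra.of F V v) =
    CP.iS (D0 φ z) (MonoidAlgebra.of F V (φ e v)) * CP.n (D0 φ z) e
  rw [CP.n_mul_iS, of_act]

theorem n_vv_sn (e : E) (v : V) : CP.n (D0 φ z) e * vv φ z v =
    CP.sn (D0 φ z) (MonoidAlgebra.of F V (φ e v)) e := by
  rw [n_vv, ← CP.iS_mul_n]
  rfl

/-- coordinates -/
theorem lamW_coord (h : E) (v : V) (x : CP (D0 φ z)) :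
    lamW φ z (vv φ z v⁻¹ * D6.ni (D0 φ z) h * x) = (x.f h).coeff (φ h v) := by
  have h1 : vv φ z v⁻¹ * D6.ni (D0 φ z) h = ((((D0 φ z).c h h⁻¹)⁻¹ : Fˣ) : F) •
      CP.sn (D0 φ z) (MonoidAlgebra.of F V v⁻¹) h⁻¹ := by
    rw [D6.ni, mul_smul_comm, ← CP.iS_mul_n]
    rfl
  have h2 : (φ h⁻¹).symm v = φ h v := by
    rw [map_inv]
    rfl
  rw [h1, smul_mul_assoc, map_smul, lamW_apply, CP.sn_mul_f, mul_one, inv_inv,
    MonoidAlgebra.coeff_smul_apply, MonoidAlgebra.of_apply, MonoidAlgebra.coeff_single_mul_apply,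
    inv_inv, mul_one, one_mul]
  have h3 : ((D0 φ z).act h⁻¹ (x.f h)).coeff v = (x.f h).coeff (φ h v) := by
    rw [← h2]
    exact acV_coeff φ h⁻¹ (x.f h) v
  rw [h3, ← CP.c_inv_symm, smul_eq_mul, smul_eq_mul, ← mul_assoc, Units.inv_mul, one_mul]

/-- the basis -/
def bV (s : E × V) : CP (D0 φ z) := CP.n (D0 φ z) s.1 * vv φ z s.2

/-- the dual basis -/
def bV' (s : E × V) : CP (D0 φ z) := vv φ z s.2⁻¹ * D6.ni (D0 φ z) s.1

open Classical in
theorem bV_dual (s t : E × V) : lamW φ z (bV' φ z s * bV φ z t) = if s = t then 1 else 0 := by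
  rw [bV, bV', lamW_coord, n_vv_sn, CP.sn_f]
  by_cases h : s.1 = t.1
  · rw [if_pos h, MonoidAlgebra.of_apply, MonoidAlgebra.coeff_single, h]
    by_cases h2 : s.2 = t.2
    · rw [h2, Finsupp.single_eq_same, if_pos (Prod.ext h h2)]
    · rw [if_neg fun h3 => h2 (congrArg Prod.snd h3), Finsupp.single_apply, if_neg]
      intro h3
      exact h2 ((φ t.1).injective h3).symm
  · rw [if_neg h, if_neg fun h3 => h (congrArg Prod.fst h3)]
    rfl

variable [Fintype V]

theorem sum_of (x : MonoidAlgebra F V) : ∑ v, x.coeff v • MonoidAlgebra.of F V v = x := by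
  classical
  apply MonoidAlgebra.coeff_injective
  apply Finsupp.ext
  intro u
  rw [coeff_sum', Finset.sum_eq_single u]
  · rw [MonoidAlgebra.coeff_smul_apply, MonoidAlgebra.of_apply, MonoidAlgebra.coeff_single,
      Finsupp.single_eq_same, smul_eq_mul, mul_one]
  · intro v _ hv
    rw [MonoidAlgebra.coeff_smul_apply, MonoidAlgebra.of_apply, MonoidAlgebra.coeff_single,
      Finsupp.single_apply, if_neg hv, smul_zero]
  · intro h
    exact absurd (Finset.mem_univ u) h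

theorem bV_sum (x : CP (D0 φ z)) : ∑ s, lamW φ z (bV' φ z s * x) • bV φ z s = x := by
  rw [Fintype.sum_prod_type]
  conv_rhs => rw [← CP.sum_sn x]
  apply Finset.sum_congr rfl
  intro h _
  have h1 : ∀ v : V, lamW φ z (bV' φ z (h, v) * x) • bV φ z (h, v) =
      (x.f h).coeff (φ h v) • CP.sn (D0 φ z) (MonoidAlgebra.of F V (φ h v)) h := by
    intro v
    rw [bV', bV, lamW_coord, n_vv_sn]
  rw [Finset.sum_congr rfl fun v _ => h1 v]
  refine (Equiv.sum_comp (φ h).toEquiv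
    (fun v => (x.f h).coeff v • CP.sn (D0 φ z) (MonoidAlgebra.of F V v) h)).trans ?_
  have h2 : CP.sn (D0 φ z) (x.f h) h = ∑ v, (x.f h).coeff v •
      CP.sn (D0 φ z) (MonoidAlgebra.of F V v) h := by
    let L : MonoidAlgebra F V →ₗ[F] CP (D0 φ z) :=
      { toFun := fun s => CP.sn (D0 φ z) s h
        map_add' := fun s t => CP.sn_add s t h
        map_smul' := fun r s => CP.sn_smul r s h }
    have h3 : L (x.f h) = ∑ v, (x.f h).coeff v • L (MonoidAlgebra.of F V v) := by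
      conv_lhs => rw [← sum_of (x.f h)]
      rw [map_sum]
      apply Finset.sum_congr rfl
      intro v _
      rw [map_smul]
    exact h3
  exact h2.symm

theorem bV_sum' (x : CP (D0 φ z)) : ∑ s, lamW φ z (x * bV φ z s) • bV' φ z s = x := by
  classical
  obtain ⟨y, hy⟩ : ∃ y, y = ∑ s, lamW φ z (x * bV φ z s) • bV' φ z s := ⟨_, rfl⟩
  rw [← hy, ← sub_eq_zero]
  have h1 : ∀ t, lamW φ z ((y - x) * bV φ z t) = 0 := by
    intro t
    rw [sub_mul, map_sub, sub_eq_zero, hy, Finset.sum_mul, map_sum, Finset.sum_eq_single t]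
    · rw [smul_mul_assoc, map_smul, bV_dual, if_pos rfl, smul_eq_mul, mul_one]
    · intro s _ hs
      rw [smul_mul_assoc, map_smul, bV_dual, if_neg hs, smul_zero]
    · intro h
      exact absurd (Finset.mem_univ t) h
  have h2 : ∀ q, lamW φ z ((y - x) * q) = 0 := by
    intro q
    rw [← bV_sum φ z q, Finset.mul_sum, map_sum]
    apply Finset.sum_eq_zero
    intro s _
    rw [mul_smul_comm, map_smul, h1, smul_zero]
  rw [← bV_sum φ z (y - x)]
  apply Finset.sum_eq_zero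
  intro s _
  rw [lamW_sym, h2, zero_smul]

/-- sums over `V` by a transversal -/
theorem tvsum {M : Type} [AddCommMonoid M] (W : Subgroup V) [Fintype W] (T : Finset V)
    (hT : Pool.Agent.PFC.IsTv W ⊤ T) (G : V → M) : ∑ t : T, ∑ w : W, G (t * w) = ∑ v, G v := by
  rw [← Fintype.sum_prod_type']
  apply Fintype.sum_bijective (fun p : T × W => (p.1 : V) * (p.2 : V))
  · constructor
    · rintro ⟨t, w⟩ ⟨t', w'⟩ h
      have h0 : (t : V) * (w : V) = (t' : V) * (w' : V) := h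
      obtain ⟨s, -, hs⟩ := hT.2 ((t : V) * (w : V)) trivial
      have h1 : (t : V) = s := hs t ⟨t.2, by rw [inv_mul_cancel_left]; exact w.2⟩
      have h2 : (t' : V) = s := hs t' ⟨t'.2, by rw [h0, inv_mul_cancel_left]; exact w'.2⟩
      have h3 : t = t' := Subtype.ext (h1.trans h2.symm)
      subst h3
      have h4 : w = w' := Subtype.ext (mul_left_cancel h0)
      rw [h4]
    · intro v
      obtain ⟨s, ⟨hs, hs'⟩, -⟩ := hT.2 v trivial
      exact ⟨(⟨s, hs⟩, ⟨_, hs'⟩), mul_inv_cancel_left s v⟩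
  · intro p
    rfl

end

theorem wgd : WgdStmt := by
  intro F V E _ _ _ _ _ φ W _ z hW T hT
  classical
  have hb : ∀ (i : E × T) (w : W), CP.n (D0 φ z) i.1 * vv φ z (i.2 : V) * vv φ z (w : V) =
      bV φ z (i.1, (i.2 : V) * (w : V)) := by
    intro i w
    rw [bV, map_mul, mul_assoc]
  have hb' : ∀ (i : E × T) (w : W), vv φ z ((w⁻¹ : W) : V) *
      (vv φ z (i.2 : V)⁻¹ * D6.ni (D0 φ z) i.1) = bV' φ z (i.1, (i.2 : V) * (w : V)) := by
    intro i w
    rw [bV', ← mul_assoc, ← map_mul, InvMemClass.coe_inv, mul_inv_rev]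
  have hinj : ∀ (i j : E × T) (u w : W), (i.1, (i.2 : V) * (u : V)) = (j.1, (j.2 : V) * (w : V)) →
      i = j ∧ u = w := by
    intro i j u w h
    obtain ⟨h0, h1⟩ := Prod.ext_iff.1 h
    have h1' : (i.2 : V) * (u : V) = (j.2 : V) * (w : V) := h1
    obtain ⟨s, -, hs⟩ := hT.2 ((i.2 : V) * (u : V)) trivial
    have h2 : (i.2 : V) = s := hs i.2 ⟨i.2.2, by rw [inv_mul_cancel_left]; exact u.2⟩
    have h3 : (j.2 : V) = s := hs j.2 ⟨j.2.2, by rw [h1', inv_mul_cancel_left]; exact w.2⟩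
    have h4 : i.2 = j.2 := Subtype.ext (h2.trans h3.symm)
    refine ⟨Prod.ext h0 h4, ?_⟩
    rw [h4] at h1'
    exact Subtype.ext (mul_left_cancel h1')
  have hmem : ∀ (e : E) (w : W), φ e⁻¹ (w : V) ∈ W := fun e w => hW _ _ w.2
  let ph : E × T → W →* W := fun i =>
    { toFun := fun w => ⟨φ i.1⁻¹ (w : V), hmem i.1 w⟩
      map_one' := Subtype.ext (map_one (φ i.1⁻¹))
      map_mul' := fun u w => Subtype.ext (map_mul (φ i.1⁻¹) _ _) }
  refine ⟨{ lam := lamW φ z
            sym := lamW_sym φ z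
            om := (vv φ z).comp W.subtype
            cf := fun i => CP.n (D0 φ z) i.1 * vv φ z (i.2 : V)
            cf' := fun i => vv φ z (i.2 : V)⁻¹ * D6.ni (D0 φ z) i.1
            h1 := ?_
            h2 := ?_
            d1 := ?_
            d0 := ?_
            ph := ph
            phb := ?_
            nrm := ?_ }, fun w => rfl, fun i => rfl, fun i => rfl⟩
  · intro x
    show ∑ i : E × T, ∑ w : W, lamW φ z (vv φ z ((w⁻¹ : W) : V) *
      (vv φ z (i.2 : V)⁻¹ * D6.ni (D0 φ z) i.1) * x) •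
      (CP.n (D0 φ z) i.1 * vv φ z (i.2 : V) * vv φ z (w : V)) = x
    simp only [hb, hb']
    rw [Fintype.sum_prod_type]
    conv_rhs => rw [← bV_sum φ z x, Fintype.sum_prod_type]
    apply Finset.sum_congr rfl
    intro e _
    exact tvsum W T hT (fun v => lamW φ z (bV' φ z (e, v) * x) • bV φ z (e, v))
  · intro x
    show ∑ i : E × T, ∑ w : W, lamW φ z (x *
      (CP.n (D0 φ z) i.1 * vv φ z (i.2 : V) * vv φ z (w : V))) • (vv φ z ((w⁻¹ : W) : V) *
      (vv φ z (i.2 : V)⁻¹ * D6.ni (D0 φ z) i.1)) = x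
    simp only [hb, hb']
    rw [Fintype.sum_prod_type]
    conv_rhs => rw [← bV_sum' φ z x, Fintype.sum_prod_type]
    apply Finset.sum_congr rfl
    intro e _
    exact tvsum W T hT (fun v => lamW φ z (x * bV φ z (e, v)) • bV' φ z (e, v))
  · intro i w
    show lamW φ z (vv φ z ((w⁻¹ : W) : V) * (vv φ z (i.2 : V)⁻¹ * D6.ni (D0 φ z) i.1) *
      (CP.n (D0 φ z) i.1 * vv φ z (i.2 : V) * vv φ z (w : V))) = 1
    rw [hb, hb', bV_dual, if_pos rfl]
  · intro i j u w h
    show lamW φ z (vv φ z ((u⁻¹ : W) : V) * (vv φ z (i.2 : V)⁻¹ * D6.ni (D0 φ z) i.1) *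
      (CP.n (D0 φ z) j.1 * vv φ z (j.2 : V) * vv φ z (w : V))) = 0
    rw [hb, hb', bV_dual, if_neg]
    intro h1
    obtain ⟨h2, h3⟩ := hinj i j u w h1
    rcases h with h | h
    · exact h h2
    · exact h h3
  · intro i
    rw [← Finite.injective_iff_bijective]
    intro u w h
    have h1 : φ i.1⁻¹ (u : V) = φ i.1⁻¹ (w : V) := congrArg Subtype.val h
    exact Subtype.ext ((φ i.1⁻¹).injective h1)
  · intro i w
    show vv φ z (w : V) * (CP.n (D0 φ z) i.1 * vv φ z (i.2 : V)) =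
      CP.n (D0 φ z) i.1 * vv φ z (i.2 : V) * vv φ z (φ i.1⁻¹ (w : V))
    have h1 : φ i.1 (φ i.1⁻¹ (w : V)) = w := by
      rw [← MulAut.mul_apply, ← map_mul, mul_inv_cancel, map_one]
      rfl
    have h2 := n_vv φ z i.1 (φ i.1⁻¹ (w : V))
    rw [h1] at h2
    rw [← mul_assoc, ← h2, mul_assoc, mul_assoc, ← map_mul, ← map_mul, mul_comm (i.2 : V)]

end Pool.Agent.PFD.D2b.H44
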